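import Pool.Agent.H315R2.EB.Stubs

/-!
# Every face of the lattice complex lies in a chamber
-/

set_option autoImplicit false

namespace Pool.Agent.H315R2.EB

open Module
open scoped Pointwise

namespace EXT

/-- subspaces of intermediate dimension -/
theorem exists_mid {k E : Type*} [Field k] [AddCommGroup E] [Module k E] [FiniteDimensional k E]
    (B : Submodule k E) (i : ℕ) (hi : i ≤ finrank k B) (d : ℕ) : ∀ A : Submodule k E, A ≤ B →
    finrank k A + d = i → ∃ X : Submodule k E, A ≤ X ∧ X ≤ B ∧ finrank k X = i := by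
  induction d with
  | zero => intro A hA h; exact ⟨A, le_rfl, hA, by omega⟩
  | succ d ih =>
    intro A hA h
    have hne : A ≠ B := by
      rintro rfl
      omega
    obtain ⟨v, hvB, hvA⟩ := SetLike.exists_of_lt (lt_of_le_of_ne hA hne)
    have hv0 : v ≠ 0 := fun h0 => hvA (h0 ▸ A.zero_mem)
    have h1 := Submodule.finrank_sup_add_finrank_inf_eq A (Submodule.span k {v})
    have h2 : A ⊓ Submodule.span k {v} = ⊥ :=
      disjoint_iff.1 ((Submodule.disjoint_span_singleton' hv0).2 hvA)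
    rw [h2, finrank_bot, finrank_span_singleton hv0] at h1
    have h3 : A ⊔ Submodule.span k {v} ≤ B :=
      sup_le hA ((Submodule.span_singleton_le_iff_mem _ _).2 hvB)
    obtain ⟨X, hX1, hX2, hX3⟩ := ih _ h3 (by omega)
    exact ⟨X, le_sup_left.trans hX1, hX2, hX3⟩

section

variable {O K V : Type} [CommRing O] [IsDomain O] [IsDiscreteValuationRing O]
  [Field K] [Algebra O K] [IsFractionRing O K] [AddCommGroup V] [Module K V] [Module O V]
  [IsScalarTower O K V]

/-- reduction of the coordinates -/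
noncomputable def red {m : ℕ} {L₀ : Submodule O V} (b : Basis (Fin m) O L₀) :
    L₀ →ₛₗ[IsLocalRing.residue O] (Fin m → IsLocalRing.ResidueField O) where
  toFun v i := IsLocalRing.residue O (b.repr v i)
  map_add' v w := by
    funext i
    simp only [map_add, Finsupp.add_apply, Pi.add_apply]
  map_smul' c v := by
    funext i
    simp only [map_smul, Finsupp.smul_apply, smul_eq_mul, map_mul, Pi.smul_apply]

theorem red_apply {m : ℕ} {L₀ : Submodule O V} (b : Basis (Fin m) O L₀) (v : L₀) (i : Fin m) :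
    red b v i = IsLocalRing.residue O (b.repr v i) := rfl

theorem red_surj {m : ℕ} {L₀ : Submodule O V} (b : Basis (Fin m) O L₀) :
    Function.Surjective (red b) := by
  intro f
  choose g hg using fun i => IsLocalRing.residue_surjective (f i)
  refine ⟨∑ i, g i • b i, ?_⟩
  funext j
  rw [red_apply, Basis.repr_sum_self, hg]

theorem red_eq_zero {p : Kˣ} (hp : IsUnif O p) {m : ℕ} {L₀ : Submodule O V}
    (b : Basis (Fin m) O L₀) (v : L₀) : red b v = 0 ↔ (v : V) ∈ p • L₀ := by
  obtain ⟨ϖ, hϖ, hpϖ⟩ := hp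
  have hsm : ∀ w : V, p • w = ϖ • w := by
    intro w
    rw [Units.smul_def, ← hpϖ, algebraMap_smul]
  have hmax := hϖ.maximalIdeal_eq
  constructor
  · intro h
    have h1 : ∀ i, ∃ c : O, b.repr v i = ϖ * c := by
      intro i
      have h2 := congrFun h i
      rw [red_apply, Pi.zero_apply, IsLocalRing.residue_eq_zero_iff, hmax,
        Ideal.mem_span_singleton'] at h2
      obtain ⟨c, hc⟩ := h2
      exact ⟨c, by rw [← hc, mul_comm]⟩
    choose c hc using h1
    have h3 : v = ϖ • ∑ i, c i • b i := by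
      conv_lhs => rw [← b.sum_repr v]
      rw [Finset.smul_sum]
      refine Finset.sum_congr rfl fun i _ => ?_
      rw [hc i, mul_smul]
    rw [h3, Submodule.coe_smul, ← hsm]
    exact Submodule.smul_mem_pointwise_smul _ _ _ (Subtype.mem _)
  · intro h
    obtain ⟨w, hw, hwv⟩ := (Submodule.mem_smul_pointwise_iff_exists _ _ _).1 h
    have h3 : v = ϖ • (⟨w, hw⟩ : L₀) := by
      apply Subtype.ext
      rw [Submodule.coe_smul, ← hsm]
      exact hwv.symm
    funext i
    rw [red_apply, Pi.zero_apply, IsLocalRing.residue_eq_zero_iff, hmax, h3, map_smul,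
      Finsupp.smul_apply, smul_eq_mul]
    exact Ideal.mul_mem_right _ _ (Ideal.mem_span_singleton_self _)

/-- the rank function -/
theorem exists_rank {p : Kˣ} (hp : IsUnif O p) {m : ℕ} (hm : finrank K V = m)
    (L₀ : Submodule O V) (hL : Submodule.IsLattice K L₀) (hpL : p • L₀ ≤ L₀) :
    ∃ r : Set.Icc (p • L₀) L₀ → ℕ, StrictMono r ∧ (∀ N, N.1 = p • L₀ → r N = 0) ∧
      (∀ N, N.1 = L₀ → r N = m) ∧
      ∀ (A B : Set.Icc (p • L₀) L₀) (i : ℕ), A ≤ B → r A ≤ i → i ≤ r B →
        ∃ X, A ≤ X ∧ X ≤ B ∧ r X = i := by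
  have hrank : finrank O L₀ = m := by
    rw [← hm]
    unfold finrank
    rw [Submodule.IsLattice.rank' K L₀]
  have htf : Module.IsTorsionFree O K := inferInstance
  have hfree : Module.Free O L₀ := Submodule.IsLattice.free (K := K) L₀
  have hfin : Module.Finite O L₀ := Submodule.IsLattice.finite K L₀
  let b : Basis (Fin m) O L₀ := finBasisOfFinrankEq O L₀ hrank
  have : RingHomSurjective (IsLocalRing.residue O) := ⟨IsLocalRing.residue_surjective⟩
  let W : Submodule O V → Submodule (IsLocalRing.ResidueField O)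
      (Fin m → IsLocalRing.ResidueField O) := fun N => (N.comap L₀.subtype).map (red b)
  have hWmem : ∀ N f, f ∈ W N ↔ ∃ v : L₀, (v : V) ∈ N ∧ red b v = f := by
    intro N f
    simp only [W, Submodule.mem_map, Submodule.mem_comap, Submodule.coe_subtype]
  have hWmono : ∀ N N', N ≤ N' → W N ≤ W N' := by
    intro N N' h f hf
    obtain ⟨v, hv, hvf⟩ := (hWmem _ _).1 hf
    exact (hWmem _ _).2 ⟨v, h hv, hvf⟩
  have hback : ∀ N : Submodule O V, p • L₀ ≤ N → ∀ v : L₀, red b v ∈ W N → (v : V) ∈ N := by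
    intro N hN v hv
    obtain ⟨w, hw, hwv⟩ := (hWmem _ _).1 hv
    have h1 : red b (v - w) = 0 := by rw [map_sub, hwv, sub_self]
    have h2 := hN ((red_eq_zero hp b _).1 h1)
    have h3 : (v : V) = ((v - w : L₀) : V) + w := by
      rw [Submodule.coe_sub, sub_add_cancel]
    rw [h3]
    exact N.add_mem h2 hw
  refine ⟨fun N => finrank (IsLocalRing.ResidueField O) (W N.1), ?_, ?_, ?_, ?_⟩
  · intro N N' hlt
    apply Submodule.finrank_strictMono
    refine lt_of_le_of_ne (hWmono _ _ hlt.le) fun he => hlt.not_ge ?_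
    intro v hv
    have hvL : v ∈ L₀ := N'.2.2 hv
    refine hback N.1 N.2.1 ⟨v, hvL⟩ ?_
    rw [he]
    exact (hWmem _ _).2 ⟨⟨v, hvL⟩, hv, rfl⟩
  · intro N hN
    have : W N.1 = ⊥ := by
      rw [eq_bot_iff]
      intro f hf
      obtain ⟨v, hv, hvf⟩ := (hWmem _ _).1 hf
      rw [hN] at hv
      rw [Submodule.mem_bot, ← hvf]
      exact (red_eq_zero hp b _).2 hv
    show finrank (IsLocalRing.ResidueField O) (W N.1) = 0
    rw [this, finrank_bot]
  · intro N hN
    have : W N.1 = ⊤ := by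
      rw [eq_top_iff]
      intro f _
      obtain ⟨v, hv⟩ := red_surj b f
      exact (hWmem _ _).2 ⟨v, by rw [hN]; exact v.2, hv⟩
    show finrank (IsLocalRing.ResidueField O) (W N.1) = m
    rw [this, finrank_top, Module.finrank_fin_fun]
  · intro A B i hAB hA hB
    obtain ⟨X, hX1, hX2, hX3⟩ := exists_mid (W B.1) i hB
      (i - finrank (IsLocalRing.ResidueField O) (W A.1)) (W A.1) (hWmono _ _ hAB) (by
        have : finrank (IsLocalRing.ResidueField O) (W A.1) ≤ i := hA
        omega)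
    let N : Submodule O V := (X.comap (red b)).map L₀.subtype
    have hNmem : ∀ v : V, v ∈ N ↔ ∃ h : v ∈ L₀, red b ⟨v, h⟩ ∈ X := by
      intro v
      simp only [N, Submodule.mem_map, Submodule.mem_comap, Submodule.coe_subtype]
      constructor
      · rintro ⟨w, hw, rfl⟩
        exact ⟨w.2, hw⟩
      · rintro ⟨h, h'⟩
        exact ⟨⟨v, h⟩, h', rfl⟩
    have hN2 : N ≤ L₀ := fun v hv => ((hNmem v).1 hv).1
    have hN1 : p • L₀ ≤ N := by
      intro v hv
      refine (hNmem v).2 ⟨hpL hv, ?_⟩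
      rw [(red_eq_zero hp b ⟨v, hpL hv⟩).2 hv]
      exact X.zero_mem
    have hWN : W N = X := by
      apply le_antisymm
      · intro f hf
        obtain ⟨v, hv, hvf⟩ := (hWmem _ _).1 hf
        obtain ⟨h, h'⟩ := (hNmem _).1 hv
        rw [← hvf]
        exact h'
      · intro f hf
        obtain ⟨v, hv⟩ := red_surj b f
        refine (hWmem _ _).2 ⟨v, (hNmem _).2 ⟨v.2, ?_⟩, hv⟩
        rw [← hv] at hf
        exact hf
    refine ⟨⟨N, hN1, hN2⟩, ?_, ?_, ?_⟩
    · intro v hv
      have hvL : v ∈ L₀ := A.2.2 hv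
      exact (hNmem v).2 ⟨hvL, hX1 ((hWmem _ _).2 ⟨⟨v, hvL⟩, hv, rfl⟩)⟩
    · intro v hv
      obtain ⟨h, h'⟩ := (hNmem v).1 hv
      exact hback B.1 B.2.1 ⟨v, h⟩ (hX2 h')
    · show finrank (IsLocalRing.ResidueField O) (W N) = i
      rw [hWN, hX3]

theorem smul_lt' (c : Kˣ) {A B : Submodule O V} (h : A < B) : c • A < c • B := by
  refine lt_of_le_of_ne (Submodule.map_mono h.le) fun he => h.ne ?_
  have h1 := congrArg (fun X : Submodule O V => c⁻¹ • X) he
  simpa only [inv_smul_smul] using h1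

/-- covering is preserved by units -/
theorem smul_covBy (c : Kˣ) {A B : Submodule O V} (h : A ⋖ B) : c • A ⋖ c • B := by
  refine ⟨smul_lt' c h.1, fun X h1 h2 => ?_⟩
  refine h.2 (c := c⁻¹ • X) ?_ ?_
  · have := smul_lt' c⁻¹ h1
    rwa [inv_smul_smul] at this
  · have := smul_lt' c⁻¹ h2
    rwa [inv_smul_smul] at this

end

end EXT

theorem EXT_proof (hF : St_FLAG) (_hV : St_VAL) (hH : St_HOM) (hW : St_WIN) : St_EXT := by
  intro O K V _ _ _ _ _ _ _ _ _ _ _ p hp m hm0 hm s hs
  obtain ⟨⟨x0, hx0⟩, hs⟩ := hs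
  obtain ⟨L₀, hL₀⟩ : ∃ L₀ : Lat O K V, cls L₀ = x0 := Quotient.exists_rep x0
  have hfin : 0 < finrank K V := by rw [hm]; exact hm0
  obtain ⟨hH1, hH2, hH3, hH4⟩ := hH O K V p hp
  have hpL : p • L₀.1 < L₀.1 := hH4 hfin L₀
  obtain ⟨r, hr, hr0, hrm, hgap⟩ := EXT.exists_rank hp hm L₀.1 L₀.2 hpL.le
  let P : Type := Set.Icc (p • L₀.1) L₀.1
  have fct : Fact (p • L₀.1 ≤ L₀.1) := ⟨hpL.le⟩
  let bo : BoundedOrder P := inferInstanceAs (BoundedOrder (Set.Icc (p • L₀.1) L₀.1))
  have hbot : (⊥ : P).1 = p • L₀.1 := rfl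
  have htop : (⊤ : P).1 = L₀.1 := rfl
  let S : Set P := {N | ∃ l : Lat O K V, cls l ∈ s ∧ l.1 = N.1}
  have hS : IsChain (· ≤ ·) S := by
    rintro A ⟨l, hl, hlA⟩ B ⟨l', hl', hlB⟩ _
    have h := hs l l' hl hl'
    rw [hlA, hlB] at h
    exact h
  obtain ⟨F, hF1, hF2, hF3⟩ := hF P m r hr (hr0 _ hbot) (hrm _ htop) hgap S hS
  have hF0 : F 0 = ⊥ := by
    by_contra hne
    have h1 : (⊥ : P) < F 0 := bot_lt_iff_ne_bot.2 hne
    have h2 := hr h1
    rw [hF1 0 (Nat.zero_le _)] at h2
    exact Nat.not_lt_zero _ h2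
  have hFm : F m = ⊤ := by
    by_contra hne
    have h1 : F m < (⊤ : P) := lt_top_iff_ne_top.2 hne
    have h2 := hr h1
    rw [hF1 m le_rfl, hrm _ htop] at h2
    exact lt_irrefl _ h2
  have hcov : ∀ i, i < m → (F i).1 ⋖ (F (i + 1)).1 := by
    intro i hi
    have hlt : F i < F (i + 1) := by
      refine lt_of_le_of_ne (hF2 i (i + 1) (Nat.le_succ _) hi) fun he => ?_
      have h1 := hF1 i hi.le
      have h2 := hF1 (i + 1) hi
      rw [he, h2] at h1
      omega
    refine ⟨hlt, fun X h1 h2 => ?_⟩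
    let X' : P := ⟨X, (F i).2.1.trans h1.le, h2.le.trans (F (i + 1)).2.2⟩
    have h3 : r (F i) < r X' := hr h1
    have h4 : r X' < r (F (i + 1)) := hr h2
    rw [hF1 i hi.le] at h3
    rw [hF1 (i + 1) hi] at h4
    omega
  have hm' : (0 : ℤ) < m := by exact_mod_cast hm0
  have hm'' : (m : ℤ) ≠ 0 := hm'.ne'
  -- the chamber
  let L : ℤ → Submodule O V := fun k => p ^ (k / m) • (F (m - (k % m).toNat)).1
  have hLdef : ∀ (q : ℤ) (j : ℕ), j < m → L (j + q * m) = p ^ q • (F (m - j)).1 := by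
    intro q j hj
    have h1 : ((j : ℤ) + q * m) / m = q := by
      rw [Int.add_mul_ediv_right _ _ hm'', Int.ediv_eq_zero_of_lt (by positivity)
        (by exact_mod_cast hj), zero_add]
    have h2 : ((j : ℤ) + q * m) % m = j := by
      rw [Int.add_mul_emod_self_right, Int.emod_eq_of_lt (by positivity) (by exact_mod_cast hj)]
    show p ^ (((j : ℤ) + q * m) / m) • (F (m - (((j : ℤ) + q * m) % m).toNat)).1 = _
    rw [h1, h2, Int.toNat_natCast]
  have hdiv : ∀ k : ℤ, ∃ (q : ℤ) (j : ℕ), j < m ∧ k = j + q * m := by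
    intro k
    refine ⟨k / m, (k % m).toNat, ?_, ?_⟩
    · have h1 := Int.emod_lt_of_pos k hm'
      have h2 := Int.emod_nonneg k hm''
      omega
    · have h2 := Int.emod_nonneg k hm''
      rw [Int.toNat_of_nonneg h2]
      have := Int.emod_add_mul_ediv k m
      linarith
  refine ⟨L, ⟨?_, ?_, ?_⟩, ?_⟩
  · intro k
    have h0 : Submodule.IsLattice K (p • L₀.1) := by
      have := L₀.2
      exact Submodule.IsLattice.smul K L₀.1 p
    have h1 : Submodule.IsLattice K (F (m - (k % m).toNat)).1 := by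
      refine Submodule.IsLattice.of_le_of_isLattice_of_fg K (F (m - (k % m).toNat)).2.1 ?_
      have h2 : (L₀.1).FG := L₀.2.fg
      have h3 : IsNoetherian O L₀.1 := isNoetherian_of_fg_of_noetherian _ h2
      have h4 : IsNoetherian O (F (m - (k % m).toNat)).1 :=
        isNoetherian_of_le (F (m - (k % m).toNat)).2.2
      rw [← Module.Finite.iff_fg]
      infer_instance
    exact Submodule.IsLattice.smul K _ _
  · intro k
    obtain ⟨q, j, hj, rfl⟩ := hdiv k
    rw [hLdef q j hj]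
    by_cases hj' : j + 1 < m
    · have h1 : (j : ℤ) + q * m + 1 = ((j + 1 : ℕ) : ℤ) + q * m := by push_cast; ring
      rw [h1, hLdef q (j + 1) hj']
      apply EXT.smul_covBy
      have h2 := hcov (m - (j + 1)) (by omega)
      rwa [show m - (j + 1) + 1 = m - j by omega] at h2
    · have hj2 : j + 1 = m := by omega
      have h1 : (j : ℤ) + q * m + 1 = ((0 : ℕ) : ℤ) + (q + 1) * m := by
        have : (m : ℤ) = j + 1 := by exact_mod_cast hj2.symm
        push_cast
        linarith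
      rw [h1, hLdef (q + 1) 0 hm0, Nat.sub_zero, hFm, htop, zpow_add_one, mul_smul]
      apply EXT.smul_covBy
      have h2 := hcov 0 hm0
      rw [hF0, hbot] at h2
      rwa [show m - j = 0 + 1 by omega]
  · intro k
    obtain ⟨q, j, hj, rfl⟩ := hdiv k
    have h1 : (j : ℤ) + q * m + m = (j : ℤ) + (q + 1) * m := by ring
    rw [h1, hLdef (q + 1) j hj, hLdef q j hj, zpow_add_one, mul_comm, mul_smul]
  · intro x hx
    obtain ⟨l, hl⟩ : ∃ l : Lat O K V, cls l = x := Quotient.exists_rep x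
    have hcl : ∀ k : ℤ, ∃ l' : Lat O K V, l'.1 = p ^ k • l.1 ∧ cls l' = x := by
      intro k
      refine ⟨⟨p ^ k • l.1, ?_⟩, rfl, ?_⟩
      · have := l.2
        exact Submodule.IsLattice.smul K l.1 (p ^ k)
      · rw [← hl]
        exact ((hH2 l _).2 ⟨k, rfl⟩).symm
    obtain ⟨k, hk1, hk2⟩ := hW O K V p hp hfin l L₀ (fun k => by
      obtain ⟨l', hl', hl''⟩ := hcl k
      rw [← hl']
      exact hs l' L₀ (by rw [hl'']; exact hx) (by rw [hL₀]; exact hx0))
    obtain ⟨l', hl', hl''⟩ := hcl k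
    rw [← hl'] at hk1 hk2
    obtain ⟨i, hi, hFi⟩ := hF3 ⟨l'.1, hk2.le, hk1⟩ ⟨l', by rw [hl'']; exact hx, rfl⟩
    have hi0 : i ≠ 0 := by
      rintro rfl
      rw [hF0] at hFi
      have := congrArg Subtype.val hFi
      rw [hbot] at this
      exact hk2.ne this
    refine ⟨l', hl'', ((m - i : ℕ) : ℤ), ?_⟩
    have h1 := hLdef 0 (m - i) (by omega)
    rw [zero_mul, add_zero] at h1
    rw [h1, zpow_zero, one_smul, show m - (m - i) = i by omega, hFi]

end Pool.Agent.H315R2.EB
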